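import Pool.Agent.K1H60.SK.Sign

/-!
# The centre of the `SL_3`-skein algebra is not generated by punctures and threads

The question is whether, for every `d ≥ 3` and every `q ^ (1/d)` such that `q ^ (2/d)` is a
primitive `n`-th root of unity, the centre of the `SL_d`-skein algebra of a surface is generated by
the loops `[P_i]` around the punctures and the threaded skeins `L ^ [P̂_d^(n,i)]`. The answer is no:
for `d = 3` and `n = 3` this fails for every sphere with at least three punctures and for every
`v = q ^ (1/3)` such that `v ^ 2` is a primitive cube root of unity.

The definitions are in `Pool/Agent/K1H60/SK/Defs.lean`.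

* `Skein m v` is the `SL_3`-skein algebra of the sphere with `m + 1` punctures, with
  `v = q ^ (1/3)`. A sphere with `m + 1` punctures is an open disc `D` with `m` punctures. Webs in
  `D × [0,1]` are drawn in a vertical plane: the `m` lines `puncture × [0,1]` are `m` vertical
  poles, the edges pass in front of the poles or behind them, and the product puts one diagram
  above the other. Two diagrams are identified by the isotopies (`Loc.exch`, `zig`, `zag`,
  `rotMerge`, `rotSplit`, `rotTagR`, `rotTagL` in the plane, the Reidemeister moves `r1` (for framed
  webs), `r2`, `slide` in space) and by the relations of Cautis, Kamnitzer and Morrison for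
  `d = 3`: `circle`, `bigon`, `bigonR`, `bigonL`, `tags`, `assocEnd`, `assocBeg`, `squareL`,
  `squareR` and the formulas for the crossings of edges of weights 1 and 2. The edges of weight 3
  are erased, they leave tags; for `d = 3` the side of a tag does not matter.
* `punctureSkeins m v` consists of the loops of weight 1 or 2, in both directions, around one of
  the punctures.
* `threadedSkeins m v n` consists of the skeins `L ^ [P̂_3^(n,i)]`, `i = 1, 2`, for all framed
  oriented links `L` (in particular for all framed oriented knots). The parallel copies of a link
  diagram are parallel in the plane of the diagram, see `cable`; they form a diagram by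
  `Pool.Agent.K1H60.SK.isDiag_cable_poles`.
* `IsPower n i P` says that `P` is the power elementary polynomial `P_3^(n,i)`.
-/

namespace Pool.Agent.Results.MP_05e0c2_gt.PuncturedSpheres

open Pool.Agent.K1H60.SK

/-- Let `m ≥ 2` and let `v = q ^ (1/3)` be a complex number such that `v ^ 2 = q ^ (2/3)` is a
primitive cube root of unity. The centre of the `SL_3`-skein algebra of the sphere with `m + 1`
punctures contains an element which does not belong to the subalgebra generated by the puncture
skeins and by all the skeins `L ^ [P̂_3^(3,1)]` and `L ^ [P̂_3^(3,2)]`, for all framed oriented
links `L`. -/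
theorem result (m : ℕ) (hm : 2 ≤ m) (v : ℂ) (hv : IsPrimitiveRoot (v ^ 2) 3) :
    ∃ z ∈ Subalgebra.center ℂ (Skein m v),
      z ∉ Algebra.adjoin ℂ (punctureSkeins m v ∪ threadedSkeins m v 3) :=
  main' m hm v hv

/-- the power elementary polynomials `P_3^(3,i)` exist and are unique -/
theorem exists_unique_power (i : ℕ) (hi : i = 1 ∨ i = 2) : ∃! P, IsPower 3 i P := by
  rcases hi with rfl | rfl
  · exact ⟨P31, isPower31, fun Q hQ => power_unique hQ isPower31⟩
  · exact ⟨P32, isPower32, fun Q hQ => power_unique hQ isPower32⟩

/-- the parallel copies of a link diagram form a diagram -/
theorem cable_isDiag (m : ℕ) (ks : List Wt) (w : Word) (hw : IsLink w)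
    (h : IsDiag (poles m) w (poles m)) : IsDiag (poles m) (cable ks w) (poles m) :=
  isDiag_cable_poles ks w hw m h

end Pool.Agent.Results.MP_05e0c2_gt.PuncturedSpheres
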